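import Pool.Agent.Work.MP_510402_an.Interface

set_option autoImplicit false

namespace Pool.HAP

open scoped BigOperators InnerProductSpace

namespace FIELD

theorem zmod_two_cases (x : ZMod 2) : x = 0 ∨ x = 1 := by
  revert x; decide

/-- The sign of an element of `ZMod 2`. -/
def sg (x : ZMod 2) : ℝ := if x = 0 then 1 else -1

theorem sg_val (x : ZMod 2) : sg x = 1 ∨ sg x = -1 := by
  unfold sg; split_ifs <;> simp

theorem sg_add (x y : ZMod 2) : sg (x + y) = sg x * sg y := by
  unfold sg
  rcases zmod_two_cases x with h | h <;> rcases zmod_two_cases y with h' | h' <;> subst h h'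
  · simp
  · simp
  · simp
  · have : (1 : ZMod 2) + 1 = 0 := by decide
    rw [this]; simp

end FIELD

theorem stmt_Field : Stmt_Field := by
  intro κ hκ
  classical
  have hκ0 : κ ≠ 0 := by omega
  have : Fintype (GaloisField 2 κ) := Fintype.ofFinite _
  refine ⟨GaloisField 2 κ, inferInstance, inferInstance, inferInstance, ?_, ?_, ?_⟩
  · have h := GaloisField.card 2 κ hκ0
    rw [Nat.card_eq_fintype_card] at h
    convert h
  · intro x
    exact CharTwo.add_self_eq_zero x
  · have h1 : (1 : GaloisField 2 κ) ≠ 0 := one_ne_zero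
    have h2 : ¬ ∀ φ : Module.Dual (ZMod 2) (GaloisField 2 κ), φ 1 = 0 := by
      intro h
      exact h1 ((Module.forall_dual_apply_eq_zero_iff (ZMod 2) (1 : GaloisField 2 κ)).mp h)
    push Not at h2
    obtain ⟨φ, hφ⟩ := h2
    refine ⟨fun x => FIELD.sg (φ x), fun x => FIELD.sg_val _, fun x y => ?_, ⟨1, ?_⟩⟩
    · show FIELD.sg (φ (x + y)) = _
      rw [map_add, FIELD.sg_add]
    · show FIELD.sg (φ 1) = -1
      unfold FIELD.sg
      rw [if_neg hφ]

theorem stmt_AddIso : Stmt_AddIso := by
  intro G G' _ _ _ _ hG hG' hc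
  let _ : Module (ZMod 2) G := AddCommGroup.zmodModule (fun x => by rw [two_nsmul]; exact hG x)
  let _ : Module (ZMod 2) G' := AddCommGroup.zmodModule (fun x => by rw [two_nsmul]; exact hG' x)
  have : Module.Finite (ZMod 2) G := Module.Finite.of_finite
  have : Module.Finite (ZMod 2) G' := Module.Finite.of_finite
  have h1 := Module.card_eq_pow_finrank (K := ZMod 2) (V := G)
  have h2 := Module.card_eq_pow_finrank (K := ZMod 2) (V := G')
  rw [hc, h2] at h1
  have h3 : Module.finrank (ZMod 2) G = Module.finrank (ZMod 2) G' := by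
    have h4 := Nat.pow_right_injective (le_of_eq (ZMod.card 2).symm) h1
    exact h4.symm
  exact ⟨(LinearEquiv.ofFinrankEq G G' h3).toAddEquiv⟩

theorem stmt_FIELD : Stmt_Field := stmt_Field

theorem stmt_ADDISO : Stmt_AddIso := stmt_AddIso

end Pool.HAP
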