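import Pool.Agent.Work.MP_510402_an.Interface

set_option autoImplicit false

namespace Pool.HAP

open scoped BigOperators InnerProductSpace

namespace LEVEL

/-- A finite field of characteristic two with a character. -/
structure FD (κ : ℕ) where
  F : Type
  [fld : Field F]
  [fin : Fintype F]
  [dec : DecidableEq F]
  card : Fintype.card F = 2 ^ κ
  two : ∀ x : F, x + x = 0
  ψ : F → ℝ
  hψ : IsChar F ψ

attribute [instance] FD.fld FD.fin FD.dec

theorem nonempty_FD (hF : Stmt_Field) (κ : ℕ) (hκ : 1 ≤ κ) : Nonempty (FD κ) := by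
  obtain ⟨F, i1, i2, i3, h1, h2, ψ, h3⟩ := hF κ hκ
  exact ⟨{ F := F, fld := i1, fin := i2, dec := i3, card := h1, two := h2, ψ := ψ, hψ := h3 }⟩

/-- `F^3`. -/
abbrev V (F : Type) : Type := F × F × F

/-- `F^6`. -/
abbrev W (F : Type) : Type := V F × V F

section

variable {F : Type} [Field F]

/-- The dot product on `F^6`. -/
def dot (u w : W F) : F :=
  u.1.1 * w.1.1 + u.1.2.1 * w.1.2.1 + u.1.2.2 * w.1.2.2
    + (u.2.1 * w.2.1 + u.2.2.1 * w.2.2.1 + u.2.2.2 * w.2.2.2)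

theorem dot_comm (u w : W F) : dot u w = dot w u := by
  unfold dot; ring

theorem dot_add_left (u u' w : W F) : dot (u + u') w = dot u w + dot u' w := by
  unfold dot
  simp only [Prod.fst_add, Prod.snd_add]
  ring

theorem dot_add_right (u w w' : W F) : dot u (w + w') = dot u w + dot u w' := by
  rw [dot_comm, dot_add_left, dot_comm w, dot_comm w']

theorem exists_dot (c : W F) (hc : c ≠ 0) (t : F) : ∃ w, dot c w = t := by
  obtain ⟨⟨a, b, c⟩, ⟨d, e, f⟩⟩ := c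
  have : a ≠ 0 ∨ b ≠ 0 ∨ c ≠ 0 ∨ d ≠ 0 ∨ e ≠ 0 ∨ f ≠ 0 := by
    by_contra h
    push Not at h
    obtain ⟨h1, h2, h3, h4, h5, h6⟩ := h
    apply hc
    subst h1 h2 h3 h4 h5 h6
    rfl
  rcases this with h | h | h | h | h | h
  · exact ⟨((a⁻¹ * t, 0, 0), (0, 0, 0)), by unfold dot; simp; field_simp⟩
  · exact ⟨((0, b⁻¹ * t, 0), (0, 0, 0)), by unfold dot; simp; field_simp⟩
  · exact ⟨((0, 0, c⁻¹ * t), (0, 0, 0)), by unfold dot; simp; field_simp⟩
  · exact ⟨((0, 0, 0), (d⁻¹ * t, 0, 0)), by unfold dot; simp; field_simp⟩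
  · exact ⟨((0, 0, 0), (0, e⁻¹ * t, 0)), by unfold dot; simp; field_simp⟩
  · exact ⟨((0, 0, 0), (0, 0, f⁻¹ * t)), by unfold dot; simp; field_simp⟩

/-- The quadratic map. -/
def Qm (v : V F) : W F := (v, (v.1 * v.2.1, v.2.1 * v.2.2, v.2.2 * v.1))

theorem Qm_injective : Function.Injective (Qm (F := F)) := by
  intro v v' h
  exact congrArg Prod.fst h

theorem sq_one {ψ : F → ℝ} (hψ : IsChar F ψ) (x : F) : ψ x * ψ x = 1 := by
  rcases hψ.val x with h | h <;> rw [h] <;> norm_num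

theorem sum_char_zero [Fintype F] {ψ : F → ℝ} (hψ : IsChar F ψ) (c : W F) (hc : c ≠ 0) :
    ∑ w : W F, ψ (dot c w) = 0 := by
  obtain ⟨t, ht⟩ := hψ.nontriv
  obtain ⟨w0, hw0⟩ := exists_dot c hc t
  have h1 : ∑ w : W F, ψ (dot c w) = ∑ w : W F, ψ (dot c (w + w0)) :=
    (Equiv.sum_comp (Equiv.addRight w0) (fun w => ψ (dot c w))).symm
  have h2 : ∑ w : W F, ψ (dot c (w + w0)) = - ∑ w : W F, ψ (dot c w) := by
    rw [← Finset.sum_neg_distrib]
    refine Finset.sum_congr rfl fun w _ => ?_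
    rw [dot_add_right, hψ.mul, hw0, ht]
    ring
  linarith

theorem sum_two [Fintype F] {ψ : F → ℝ} (hψ : IsChar F ψ) (h2 : ∀ x : F, x + x = 0)
    (c c' : W F) [Decidable (c = c')] :
    ∑ w : W F, ψ (dot c w) * ψ (dot c' w) = if c = c' then (Fintype.card (W F) : ℝ) else 0 := by
  split_ifs with h
  · subst h
    simp only [sq_one hψ]
    simp
  · have h3 : ∀ w : W F, ψ (dot c w) * ψ (dot c' w) = ψ (dot (c + c') w) := by
      intro w
      rw [dot_add_left, hψ.mul]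
    simp only [h3]
    apply sum_char_zero hψ
    intro h0
    apply h
    have h4 : c' + c' = 0 := by
      ext <;> simp [h2]
    calc c = c + (c' + c') := by rw [h4, add_zero]
      _ = (c + c') + c' := by rw [add_assoc]
      _ = c' := by rw [h0, zero_add]

theorem coh_sum [Fintype F] (hQ : Stmt_SumQ) {ψ : F → ℝ} (hψ : IsChar F ψ)
    (h2 : ∀ x : F, x + x = 0) (c c' : W F) (h : c ≠ c') :
    |∑ v : V F, ψ (dot (Qm v) c) * ψ (dot (Qm v) c')| ≤ (Fintype.card F : ℝ) ^ 2 := by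
  have h3 : ∀ v : V F, ψ (dot (Qm v) c) * ψ (dot (Qm v) c') = ψ (dot (Qm v) (c + c')) := by
    intro w
    rw [dot_add_right, hψ.mul]
  simp only [h3]
  have hne : c + c' ≠ 0 := by
    intro h0
    apply h
    have h4 : c' + c' = 0 := by
      ext <;> simp [h2]
    calc c = c + (c' + c') := by rw [h4, add_zero]
      _ = (c + c') + c' := by rw [add_assoc]
      _ = c' := by rw [h0, zero_add]
  generalize c + c' = d at hne
  obtain ⟨⟨a, b, c⟩, ⟨α, β, γ⟩⟩ := d
  have hnz : a ≠ 0 ∨ b ≠ 0 ∨ c ≠ 0 ∨ α ≠ 0 ∨ β ≠ 0 ∨ γ ≠ 0 := by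
    by_contra h
    push Not at h
    obtain ⟨h1, h2, h3, h4, h5, h6⟩ := h
    apply hne
    subst h1 h2 h3 h4 h5 h6
    rfl
  have key := hQ F ψ hψ a b c α β γ hnz
  have e : ∑ v : V F, ψ (dot (Qm v) ((a, b, c), (α, β, γ)))
      = ∑ x, ∑ y, ∑ z, ψ (a * x + b * y + c * z + α * (x * y) + β * (y * z) + γ * (z * x)) := by
    rw [Fintype.sum_prod_type]
    refine Finset.sum_congr rfl fun x _ => ?_
    rw [Fintype.sum_prod_type]
    refine Finset.sum_congr rfl fun y _ => Finset.sum_congr rfl fun z _ => ?_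
    congr 1
    unfold dot Qm
    ring
  rw [e]
  exact key

theorem cross_sum [Fintype F] (hC : Stmt_SumC) {ψ : F → ℝ} (hψ : IsChar F ψ)
    (lam : V F → ℝ) (hl1 : ∀ v, lam v = 1 ∨ lam v = -1)
    (hl2 : ∀ v w, lam (v + w) = lam v * lam w) (d : W F) :
    |∑ v : V F, ψ (dot (Qm v) d) * ψ (v.1 * v.2.1 * v.2.2) * lam v|
      ≤ 2 * (Fintype.card F : ℝ) ^ 2 := by
  obtain ⟨⟨a, b, c⟩, ⟨α, β, γ⟩⟩ := d
  have key := hC F ψ hψ lam hl1 hl2 a b c α β γ
  have e : ∑ v : V F, ψ (dot (Qm v) ((a, b, c), (α, β, γ))) * ψ (v.1 * v.2.1 * v.2.2) * lam v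
      = ∑ x, ∑ y, ∑ z, ψ (a * x + b * y + c * z + α * (x * y) + β * (y * z) + γ * (z * x)
        + x * y * z) * lam (x, y, z) := by
    rw [Fintype.sum_prod_type]
    refine Finset.sum_congr rfl fun x _ => ?_
    rw [Fintype.sum_prod_type]
    refine Finset.sum_congr rfl fun y _ => Finset.sum_congr rfl fun z _ => ?_
    rw [← hψ.mul]
    congr 2
    unfold dot Qm
    ring
  rw [e]
  exact key

end

theorem card_V {j : ℕ} (D : FD (2 ^ (j + 2))) : Fintype.card (V D.F) = nn j := by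
  rw [Fintype.card_prod, Fintype.card_prod, D.card]
  unfold nn
  rw [← pow_add, ← pow_add]
  congr 1
  ring

theorem nn_succ (j : ℕ) : nn (j + 1) = nn j * nn j := by
  unfold nn
  rw [← pow_add]
  congr 1
  ring

theorem card_W {j : ℕ} (D : FD (2 ^ (j + 2))) : Fintype.card (W D.F) = nn (j + 1) := by
  rw [Fintype.card_prod, card_V, nn_succ]

end LEVEL

open LEVEL

theorem stmt_LEVEL (hF : Stmt_Field) (hQ : Stmt_SumQ) (hC : Stmt_SumC) (hA : Stmt_AddIso) :
    Stmt_Level := by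
  classical
  have hD : ∀ j : ℕ, Nonempty (FD (2 ^ (j + 2))) := fun j =>
    nonempty_FD hF _ (Nat.one_le_two_pow)
  obtain ⟨D⟩ : Nonempty (∀ j, FD (2 ^ (j + 2))) := ⟨fun j => (hD j).some⟩
  -- equivalences
  have hE : ∀ j, Nonempty (Fin (nn j) ≃ V (D j).F) := fun j =>
    ⟨(Fintype.equivFinOfCardEq (card_V (D j))).symm⟩
  obtain ⟨E⟩ : Nonempty (∀ j, Fin (nn j) ≃ V (D j).F) := ⟨fun j => (hE j).some⟩
  have hT : ∀ j, Nonempty (V (D (j + 1)).F ≃+ W (D j).F) := fun j => by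
    apply hA
    · intro x
      ext <;> simp [(D (j + 1)).two]
    · intro x
      ext <;> simp [(D j).two]
    · rw [card_V, card_W]
  obtain ⟨T⟩ : Nonempty (∀ j, V (D (j + 1)).F ≃+ W (D j).F) := ⟨fun j => (hT j).some⟩
  let Θ : ∀ j, Fin (nn (j + 1)) ≃ W (D j).F := fun j => (E (j + 1)).trans (T j).toEquiv
  refine ⟨{
    h := fun j a l => (D j).ψ (dot (Θ j a) (Θ j l))
    g := fun j v => (Θ j).symm (Qm (E j v))
    ep := fun j v => (D j).ψ ((E j v).1 * (E j v).2.1 * (E j v).2.2)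
    h_val := fun j a l => (D j).hψ.val _
    ep_val := fun j v => (D j).hψ.val _
    g_inj := fun j => ?_
    rows := fun j a a' => ?_
    cols := fun j i l => ?_
    coh := fun j i l hil => ?_
    cross := fun j i l => ?_ }⟩
  · intro v v' h
    exact (E j).injective (Qm_injective ((Θ j).symm.injective h))
  · have h1 := sum_two (D j).hψ (D j).two (Θ j a) (Θ j a')
    have h2 : ∑ l, (D j).ψ (dot (Θ j a) (Θ j l)) * (D j).ψ (dot (Θ j a') (Θ j l))
        = ∑ w : W (D j).F, (D j).ψ (dot (Θ j a) w) * (D j).ψ (dot (Θ j a') w) :=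
      Equiv.sum_comp (Θ j) (fun w => (D j).ψ (dot (Θ j a) w) * (D j).ψ (dot (Θ j a') w))
    rw [h2, h1, card_W]
    simp only [EmbeddingLike.apply_eq_iff_eq]
  · have h1 := sum_two (D j).hψ (D j).two (Θ j i) (Θ j l)
    have h2 : ∑ a, (D j).ψ (dot (Θ j a) (Θ j i)) * (D j).ψ (dot (Θ j a) (Θ j l))
        = ∑ w : W (D j).F, (D j).ψ (dot (Θ j i) w) * (D j).ψ (dot (Θ j l) w) := by
      rw [← Equiv.sum_comp (Θ j) (fun w => (D j).ψ (dot (Θ j i) w) * (D j).ψ (dot (Θ j l) w))]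
      refine Finset.sum_congr rfl fun a _ => ?_
      rw [dot_comm (Θ j a) (Θ j i), dot_comm (Θ j a) (Θ j l)]
    rw [h2, h1, card_W]
    simp only [EmbeddingLike.apply_eq_iff_eq]
  · have h1 := coh_sum hQ (D j).hψ (D j).two (Θ j i) (Θ j l)
      (fun h => hil ((Θ j).injective h))
    have hq : (Fintype.card (D j).F : ℝ) = (qq j : ℝ) := by
      rw [(D j).card]; rfl
    rw [hq] at h1
    have h2 : ∑ v, (D j).ψ (dot (Θ j ((Θ j).symm (Qm (E j v)))) (Θ j i))
          * (D j).ψ (dot (Θ j ((Θ j).symm (Qm (E j v)))) (Θ j l))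
        = ∑ v : V (D j).F, (D j).ψ (dot (Qm v) (Θ j i)) * (D j).ψ (dot (Qm v) (Θ j l)) := by
      simp only [Equiv.apply_symm_apply]
      exact Equiv.sum_comp (E j)
        (fun v => (D j).ψ (dot (Qm v) (Θ j i)) * (D j).ψ (dot (Qm v) (Θ j l)))
    rw [h2]
    exact h1
  · have h1 := cross_sum hC (D (j + 1)).hψ
      (fun u => (D j).ψ (dot (T j u) (Θ j l))) (fun u => (D j).hψ.val _)
      (fun u w => by
        show (D j).ψ (dot (T j (u + w)) (Θ j l)) = _
        rw [map_add, dot_add_left, (D j).hψ.mul]) (Θ (j + 1) i)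
    have hq : (Fintype.card (D (j + 1)).F : ℝ) = (qq (j + 1) : ℝ) := by
      rw [(D (j + 1)).card]; rfl
    rw [hq] at h1
    have h2 : ∑ v : Fin (nn (j + 1)),
          (D (j + 1)).ψ (dot (Θ (j + 1) ((Θ (j + 1)).symm (Qm (E (j + 1) v)))) (Θ (j + 1) i))
          * (D (j + 1)).ψ ((E (j + 1) v).1 * (E (j + 1) v).2.1 * (E (j + 1) v).2.2)
          * (D j).ψ (dot (Θ j v) (Θ j l))
        = ∑ v : V (D (j + 1)).F, (D (j + 1)).ψ (dot (Qm v) (Θ (j + 1) i))
            * (D (j + 1)).ψ (v.1 * v.2.1 * v.2.2) * (D j).ψ (dot (T j v) (Θ j l)) := by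
      simp only [Equiv.apply_symm_apply]
      exact Equiv.sum_comp (E (j + 1))
        (fun v => (D (j + 1)).ψ (dot (Qm v) (Θ (j + 1) i))
            * (D (j + 1)).ψ (v.1 * v.2.1 * v.2.2) * (D j).ψ (dot (T j v) (Θ j l)))
    rw [h2]
    exact h1

end Pool.HAP
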